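import Pool.Agent.H65.FF.Core
import Pool.Graph.R_pool_sql_team_seeded_63374d34.N443.K54.Main

/-! The bound for the density of 4-graphs without a complete 4-graph on five vertices: last step. -/

set_option autoImplicit false
set_option maxRecDepth 100000
open Finset Equiv

namespace Pool.Agent.H65.FF

open Pool.Agent.N443.K54
open Pool.Agent.N443 (act Psi gv sum_act sum_Psi sum7 sum_gv_perm card_tuples codeN)
open Pool.Agent.Y440.A (Odd4)

section
variable {V : Type} [Fintype V] [DecidableEq V]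

open Classical in
/-- indicator of a quadruple -/
noncomputable def hh (H : Finset V → Prop) (a b c d : V) : ℕ := if H ({a, b, c, d} : Finset V) then 1 else 0

/-- the derived structure -/
noncomputable def DE (H : Finset V → Prop) (v a b c d : V) : ℕ :=
  (1 + hh H v b c d + hh H v a c d + hh H v a b d + hh H v a b c) % 2

omit [Fintype V] in
theorem hh_12 (H : Finset V → Prop) (v a b c : V) : hh H v b a c = hh H v a b c := by
  unfold hh
  rw [Finset.insert_comm b a]

omit [Fintype V] in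
theorem hh_23 (H : Finset V → Prop) (v a b c : V) : hh H v a c b = hh H v a b c := by
  unfold hh
  rw [Finset.pair_comm c b]

omit [Fintype V] in
theorem DE_odd (H : Finset V → Prop) (v : V) : Odd4 (DE H v) := by
  refine ⟨fun a b c d => ?_, fun a b c d => ?_, fun a b c d => ?_, fun a b c d => ?_,
    fun a b c d e => ?_⟩
  · unfold DE; omega
  · unfold DE
    rw [hh_12 H v a b c, hh_12 H v a b d]
    congr 1
    ring
  · unfold DE
    rw [hh_12 H v b c d, hh_23 H v a b c]
    congr 1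
    ring
  · unfold DE
    rw [hh_23 H v b c d, hh_23 H v a c d]
    congr 1
    ring
  · unfold DE
    omega

omit [Fintype V] in
theorem T0_eq (H : Finset V → Prop) (v a b c d x y : V) : T0 (gv H ![v, a, b, c, d, x, y]) = DE H v a b c d := by
  have i1 : ({0, 2, 3, 4} : Finset (Fin 7)).image (![v, a, b, c, d, x, y] : Fin 7 → V) = {v, b, c, d} := by
    simp only [image_insert, image_singleton]; rfl
  have i2 : ({0, 1, 3, 4} : Finset (Fin 7)).image (![v, a, b, c, d, x, y] : Fin 7 → V) = {v, a, c, d} := by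
    simp only [image_insert, image_singleton]; rfl
  have i3 : ({0, 1, 2, 4} : Finset (Fin 7)).image (![v, a, b, c, d, x, y] : Fin 7 → V) = {v, a, b, d} := by
    simp only [image_insert, image_singleton]; rfl
  have i4 : ({0, 1, 2, 3} : Finset (Fin 7)).image (![v, a, b, c, d, x, y] : Fin 7 → V) = {v, a, b, c} := by
    simp only [image_insert, image_singleton]; rfl
  unfold T0 DE gv hh
  rw [i1, i2, i3, i4]

theorem T0_sum (H : Finset V → Prop) :
    5 * (Fintype.card V) ^ 7 ≤ 16 * ∑ u : Fin 7 → V, T0 (gv H u) := by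
  rw [sum7 (V := V) (fun u => T0 (gv H u))]
  have h : ∀ v : V, 5 * (Fintype.card V) ^ 6 ≤
      16 * ∑ a, ∑ b, ∑ c, ∑ d, ∑ x, ∑ y, T0 (gv H ![v, a, b, c, d, x, y]) := by
    intro v
    have h1 := core V (DE H v) (DE_odd H v)
    have h2 : ∑ a, ∑ b, ∑ c, ∑ d, ∑ x, ∑ y, T0 (gv H ![v, a, b, c, d, x, y]) =
        (Fintype.card V) ^ 2 * ∑ a, ∑ b, ∑ c, ∑ d, DE H v a b c d := by
      simp only [T0_eq, sum_const, card_univ, smul_eq_mul, mul_sum]
      refine sum_congr rfl fun a _ => sum_congr rfl fun b _ => sum_congr rfl fun c _ => sum_congr rfl fun d _ => ?_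
      ring
    rw [h2]
    calc 5 * (Fintype.card V) ^ 6 = (Fintype.card V) ^ 2 * (5 * (Fintype.card V) ^ 4) := by ring
      _ ≤ (Fintype.card V) ^ 2 * (16 * ∑ a, ∑ b, ∑ c, ∑ d, DE H v a b c d) := Nat.mul_le_mul_left _ h1
      _ = _ := by ring
  have h' : ∑ _v : V, 5 * (Fintype.card V) ^ 6 ≤
      ∑ v : V, 16 * ∑ a, ∑ b, ∑ c, ∑ d, ∑ x, ∑ y, T0 (gv H ![v, a, b, c, d, x, y]) :=
    sum_le_sum fun v _ => h v
  rw [sum_const, card_univ, smul_eq_mul, ← mul_sum] at h'
  calc 5 * (Fintype.card V) ^ 7 = Fintype.card V * (5 * (Fintype.card V) ^ 6) := by ring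
    _ ≤ _ := h'

/-- the number of ordered quadruples -/
theorem dens {H : Finset V → Prop} (h : Free H) :
    1701000000 * ∑ u : Fin 7 → V, gv H u {0, 1, 2, 3} ≤ 1174744664 * (Fintype.card V) ^ 7 := by
  have h1 := GG_lower h
  have h2 : ∑ u : Fin 7 → V, Psi GG (gv H u) ≤ cC * (Fintype.card V) ^ 7 := by
    have h3 : ∑ u : Fin 7 → V, Psi GG (gv H u) ≤ ∑ _u : Fin 7 → V, cC :=
      sum_le_sum fun u _ => Psi_all (val_gv h u)
    rw [sum_const, card_univ, Fintype.card_fun, Fintype.card_fin, smul_eq_mul, mul_comm] at h3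
    exact h3
  rw [sum_Psi] at h2
  have h4 : ∑ u : Fin 7 → V, DD (codeN 5 RM (gv H u)) = 6675773660 * ((Fintype.card V : ℤ)) ^ 7 +
      16200000 * (5 * ((∑ u : Fin 7 → V, gv H u {0, 1, 2, 3} : ℕ) : ℤ)) +
      279832 * (16 * (5 * ((∑ u : Fin 7 → V, T0 (gv H u) : ℕ) : ℤ)) - 25 * ((Fintype.card V : ℤ)) ^ 7) := by
    have h5 : ∀ u : Fin 7 → V, DD (codeN 5 RM (gv H u)) = 6675773660 +
        16200000 * (pc (codeN 5 RM (gv H u)) : ℤ) + 279832 * (16 * (ct (codeN 5 RM (gv H u)) : ℤ) - 25) :=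
      fun u => DD_eq (m_lt (val_gv h u))
    rw [sum_congr rfl fun u _ => h5 u, sum_add_distrib, sum_add_distrib, ← mul_sum, ← mul_sum, sum_sub_distrib,
      ← mul_sum, sum_const, sum_const, card_univ, Fintype.card_fun, Fintype.card_fin]
    have p := pc_sum H
    have c := ct_sum H
    have p' : (∑ u : Fin 7 → V, (pc (codeN 5 RM (gv H u)) : ℤ)) = 5 * ((∑ u : Fin 7 → V, gv H u {0, 1, 2, 3} : ℕ) : ℤ) := by
      exact_mod_cast p
    have c' : (∑ u : Fin 7 → V, (ct (codeN 5 RM (gv H u)) : ℤ)) = 5 * ((∑ u : Fin 7 → V, T0 (gv H u) : ℕ) : ℤ) := by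
      exact_mod_cast c
    rw [p', c']
    simp only [nsmul_eq_mul]
    push_cast
    ring
  have h6 := T0_sum (V := V) H
  rw [h4] at h1
  have h7 : (21 : ℤ) * ∑ u : Fin 7 → V, (GG (gv H u) : ℤ) ≤ (141365991524 : ℤ) * (Fintype.card V : ℤ) ^ 7 := by
    have : cC = 141365991524 := rfl
    rw [this] at h2
    exact_mod_cast h2
  have h8 : (5 : ℤ) * (Fintype.card V : ℤ) ^ 7 ≤ 16 * ((∑ u : Fin 7 → V, T0 (gv H u) : ℕ) : ℤ) := by
    exact_mod_cast h6
  have h9 : (1701000000 : ℤ) * ((∑ u : Fin 7 → V, gv H u {0, 1, 2, 3} : ℕ) : ℤ) ≤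
      1174744664 * (Fintype.card V : ℤ) ^ 7 := by linarith
  exact_mod_cast h9

end

section
variable {V : Type} [Fintype V] [DecidableEq V]

omit [DecidableEq V] in
theorem sum4 {M : Type} [AddCommMonoid M] (f : (Fin 4 → V) → M) :
    ∑ u, f u = ∑ a, ∑ b, ∑ c, ∑ d, f ![a, b, c, d] := by
  let e : (Fin 4 → V) ≃ V × V × V × V :=
    { toFun := fun u => (u 0, u 1, u 2, u 3)
      invFun := fun p => ![p.1, p.2.1, p.2.2.1, p.2.2.2]
      left_inv := by intro u; funext i; fin_cases i <;> rfl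
      right_inv := by rintro ⟨a, b, c, d⟩; rfl }
  rw [Fintype.sum_equiv e f (fun p => f (e.symm p)) fun u => by rw [Equiv.symm_apply_apply]]
  simp only [Fintype.sum_prod_type]
  rfl

/-- ordered quadruples against sets -/
theorem edge_sum (G : Finset (Finset V)) (hG : ∀ A ∈ G, A.card = 4) :
    24 * G.card * (Fintype.card V) ^ 3 ≤ ∑ u : Fin 7 → V, gv (fun Q => Q ∈ G) u {0, 1, 2, 3} := by
  classical
  have h1 := card_tuples G hG
  have h2 : (univ.filter fun v : Fin 4 → V => univ.image v ∈ G).card =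
      ∑ a, ∑ b, ∑ c, ∑ d, if ({a, b, c, d} : Finset V) ∈ G then 1 else 0 := by
    rw [card_filter, sum4]
    refine sum_congr rfl fun a _ => sum_congr rfl fun b _ => sum_congr rfl fun c _ => sum_congr rfl fun d _ => ?_
    have : (univ : Finset (Fin 4)).image (![a, b, c, d] : Fin 4 → V) = {a, b, c, d} := by
      have hu : (univ : Finset (Fin 4)) = {0, 1, 2, 3} := rfl
      rw [hu]
      simp only [image_insert, image_singleton]; rfl
    rw [this]
  have h3 : ∑ u : Fin 7 → V, gv (fun Q => Q ∈ G) u {0, 1, 2, 3} =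
      (Fintype.card V) ^ 3 * ∑ a, ∑ b, ∑ c, ∑ d, if ({a, b, c, d} : Finset V) ∈ G then 1 else 0 := by
    rw [sum7 (V := V) (fun u => gv (fun Q => Q ∈ G) u {0, 1, 2, 3})]
    have hg : ∀ a b c d e x y : V, gv (fun Q => Q ∈ G) ![a, b, c, d, e, x, y] {0, 1, 2, 3} =
        if ({a, b, c, d} : Finset V) ∈ G then 1 else 0 := by
      intro a b c d e x y
      have i4 : ({0, 1, 2, 3} : Finset (Fin 7)).image (![a, b, c, d, e, x, y] : Fin 7 → V) = {a, b, c, d} := by
        simp only [image_insert, image_singleton]; rfl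
      unfold gv
      rw [i4]
      by_cases hq : ({a, b, c, d} : Finset V) ∈ G
      · rw [if_pos hq, if_pos hq]
      · rw [if_neg hq, if_neg hq]
    simp only [hg, sum_const, card_univ, smul_eq_mul, mul_sum]
    refine sum_congr rfl fun a _ => sum_congr rfl fun b _ => sum_congr rfl fun c _ => sum_congr rfl fun d _ => ?_
    ring
  have h4 : Nat.factorial 4 = 24 := rfl
  rw [h4, h2] at h1
  rw [h3, mul_comm _ ((Fintype.card V) ^ 3)]
  exact Nat.mul_le_mul_left _ h1

/-- the bound for the number of edges -/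
theorem card_bound (G : Finset (Finset V)) (hG : ∀ A ∈ G, A.card = 4)
    (hK : ∀ P : Finset V, P.card = 5 → ∃ Q ∈ powersetCard 4 P, Q ∉ G) (hV : 0 < Fintype.card V) :
    1701000000 * (24 * G.card) ≤ 1174744664 * (Fintype.card V) ^ 4 := by
  have h1 := dens (H := fun Q => Q ∈ G) ⟨fun Q hQ => hG Q hQ, fun P hP => hK P hP⟩
  have h2 := edge_sum G hG
  have h3 : (1701000000 * (24 * G.card)) * (Fintype.card V) ^ 3 ≤
      (1174744664 * (Fintype.card V) ^ 4) * (Fintype.card V) ^ 3 := by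
    calc (1701000000 * (24 * G.card)) * (Fintype.card V) ^ 3
        = 1701000000 * (24 * G.card * (Fintype.card V) ^ 3) := by ring
      _ ≤ 1701000000 * ∑ u : Fin 7 → V, gv (fun Q => Q ∈ G) u {0, 1, 2, 3} := Nat.mul_le_mul_left _ h2
      _ ≤ 1174744664 * (Fintype.card V) ^ 7 := h1
      _ = _ := by ring
  exact Nat.le_of_mul_le_mul_right h3 (by positivity)

end

end Pool.Agent.H65.FF
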