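import Pool.Agent.H65.FF.Core
import Pool.Graph.R_pool_sql_team_seeded_63374d34.N465.L2.Asm
import Pool.Graph.R_pool_sql_team_seeded_63374d34.N465.L2.CDG
import Pool.Graph.R_pool_sql_team_seeded_63374d34.N2.L2.LOW

/-! The codegree squares of `K_5^4`-free 4-graphs: assembly. -/

set_option autoImplicit false

open Finset

namespace Pool.Agent.H65.FF

open Pool.Agent
open Pool.Agent.Y440.A (Odd4)
open Pool.Agent.N465.L2
open Pool.Agent.N465.L2.CDGAux (S5_01 S5_12 S5_23 S5_34 S5_add S5_mul)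

section
variable {V : Type} (E : V → V → V → V → ℕ)

/-- the structure on the link of `v` -/
def LE (v a b c d : V) : ℕ := (1 + E v a b c + E v a b d + E v a c d + E v b c d) % 2

theorem LE_odd (hS : Sy4 E) (v : V) : Odd4 (LE E v) := by
  have h1 : ∀ a b c, E v b a c = E v a b c := fun a b c => hS.s1 v a b c
  have h2 : ∀ a b c, E v a c b = E v a b c := fun a b c => hS.s2 v a b c
  refine ⟨fun a b c d => ?_, fun a b c d => ?_, fun a b c d => ?_, fun a b c d => ?_,
    fun a b c d e => ?_⟩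
  · unfold LE; omega
  · unfold LE
    rw [h1 a b c, h1 a b d]
    congr 1
    ring
  · unfold LE
    rw [h2 a b c, h1 b c d]
    congr 1
    ring
  · unfold LE
    rw [h2 a c d, h2 b c d]
    congr 1
    ring
  · unfold LE
    omega

end

theorem pwt (t0 t1 t2 t3 t4 : ℕ) (h0 : t0 = 0 ∨ t0 = 1) (h1 : t1 = 0 ∨ t1 = 1) (h2 : t2 = 0 ∨ t2 = 1)
    (h3 : t3 = 0 ∨ t3 = 1) (h4 : t4 = 0 ∨ t4 = 1) (hc : 1 ≤ t0 + t1 + t2 + t3 + t4) :
    (1 + t4 + t3 + t2 + t1) % 2 + (1 + t4 + t3 + t2 + t0) % 2 + (1 + t4 + t3 + t1 + t0) % 2 +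
      (1 + t4 + t2 + t1 + t0) % 2 + (1 + t3 + t2 + t1 + t0) % 2 =
    (if t0 + t1 + t2 + t3 + t4 = 1 then 1 else 0) + 3 * (if t0 + t1 + t2 + t3 + t4 = 2 then 1 else 0) +
      3 * (if t0 + t1 + t2 + t3 + t4 = 3 then 1 else 0) + (if t0 + t1 + t2 + t3 + t4 = 4 then 1 else 0) +
      5 * (if t0 + t1 + t2 + t3 + t4 = 5 then 1 else 0) := by
  rcases h0 with rfl | rfl <;> rcases h1 with rfl | rfl <;> rcases h2 with rfl | rfl <;>
    rcases h3 with rfl | rfl <;> rcases h4 with rfl | rfl <;> first | rfl | exact absurd hc (by decide)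

theorem star_exact {n : ℕ} (E : Fin n → Fin n → Fin n → Fin n → ℕ) (hS : Sy4 E) (hC : Cov E) :
    25 * n ^ 5 ≤ 16 * (p5 E 1 + 3 * p5 E 2 + 3 * p5 E 3 + p5 E 4 + 5 * p5 E 5) := by
  have h1 : 5 * n ^ 5 ≤ 16 * CDGAux.S5 (LE E) := by
    have h : ∀ v : Fin n, 5 * n ^ 4 ≤ 16 * ∑ a, ∑ b, ∑ c, ∑ d, LE E v a b c d := by
      intro v
      have := core (Fin n) (LE E v) (LE_odd E hS v)
      rwa [Fintype.card_fin] at this
    have h' : ∑ _v : Fin n, 5 * n ^ 4 ≤ ∑ v : Fin n, 16 * ∑ a, ∑ b, ∑ c, ∑ d, LE E v a b c d :=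
      sum_le_sum fun v _ => h v
    rw [sum_const, card_univ, Fintype.card_fin, smul_eq_mul, ← mul_sum] at h'
    unfold CDGAux.S5
    calc 5 * n ^ 5 = n * (5 * n ^ 4) := by ring
      _ ≤ _ := h'
  -- the five ways
  have e1 : CDGAux.S5 (fun a b c d e => LE E b a c d e) = CDGAux.S5 (LE E) := S5_01 _
  have e2 : CDGAux.S5 (fun a b c d e => LE E c a b d e) = CDGAux.S5 (LE E) := by
    rw [← e1]
    exact S5_12 (fun a b c d e => LE E b a c d e)
  have e3 : CDGAux.S5 (fun a b c d e => LE E d a b c e) = CDGAux.S5 (LE E) := by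
    rw [← e2]
    exact S5_23 (fun a b c d e => LE E c a b d e)
  have e4 : CDGAux.S5 (fun a b c d e => LE E e a b c d) = CDGAux.S5 (LE E) := by
    rw [← e3]
    exact S5_34 (fun a b c d e => LE E d a b c e)
  have h2 : CDGAux.S5 (fun a b c d e => LE E a b c d e + LE E b a c d e + LE E c a b d e + LE E d a b c e + LE E e a b c d) =
      p5 E 1 + 3 * p5 E 2 + 3 * p5 E 3 + p5 E 4 + 5 * p5 E 5 := by
    have h3 : (fun a b c d e => LE E a b c d e + LE E b a c d e + LE E c a b d e + LE E d a b c e +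
        LE E e a b c d) = (fun a b c d e => (if kC5 E a b c d e = 1 then 1 else 0) +
          3 * (if kC5 E a b c d e = 2 then 1 else 0) + 3 * (if kC5 E a b c d e = 3 then 1 else 0) +
          (if kC5 E a b c d e = 4 then 1 else 0) + 5 * (if kC5 E a b c d e = 5 then 1 else 0)) := by
      funext a b c d e
      have k := pwt (E b c d e) (E a c d e) (E a b d e) (E a b c e) (E a b c d) (hS.b _ _ _ _) (hS.b _ _ _ _)
        (hS.b _ _ _ _) (hS.b _ _ _ _) (hS.b _ _ _ _) (hC a b c d e)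
      have s0 : E b a c d = E a b c d := hS.s0 a b c d
      have s1 : E b a c e = E a b c e := hS.s0 a b c e
      have s2 : E b a d e = E a b d e := hS.s0 a b d e
      have s3 : E c a b d = E a b c d := by rw [hS.s0 a c b d, hS.s1 a b c d]
      have s4 : E c a b e = E a b c e := by rw [hS.s0 a c b e, hS.s1 a b c e]
      have s5 : E c a d e = E a c d e := hS.s0 a c d e
      have s6 : E c b d e = E b c d e := hS.s0 b c d e
      have s7 : E d a b c = E a b c d := by rw [hS.s0 a d b c, hS.s1 a b d c, hS.s2 a b c d]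
      have s8 : E d a b e = E a b d e := by rw [hS.s0 a d b e, hS.s1 a b d e]
      have s9 : E d a c e = E a c d e := by rw [hS.s0 a d c e, hS.s1 a c d e]
      have s10 : E d b c e = E b c d e := by rw [hS.s0 b d c e, hS.s1 b c d e]
      have s11 : E e a b c = E a b c e := by rw [hS.s0 a e b c, hS.s1 a b e c, hS.s2 a b c e]
      have s12 : E e a b d = E a b d e := by rw [hS.s0 a e b d, hS.s1 a b e d, hS.s2 a b d e]
      have s13 : E e a c d = E a c d e := by rw [hS.s0 a e c d, hS.s1 a c e d, hS.s2 a c d e]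
      have s14 : E e b c d = E b c d e := by rw [hS.s0 b e c d, hS.s1 b c e d, hS.s2 b c d e]
      unfold kC5
      rw [← k]
      unfold LE
      rw [s0, s1, s2, s3, s4, s5, s6, s7, s8, s9, s10, s11, s12, s13, s14]
    rw [h3, S5_add, S5_add, S5_add, S5_add, S5_mul 3, S5_mul 3, S5_mul 5]
    rw [← CDGAux.p5_eq, ← CDGAux.p5_eq, ← CDGAux.p5_eq, ← CDGAux.p5_eq, ← CDGAux.p5_eq]
  have h5 : CDGAux.S5 (LE E) + CDGAux.S5 (LE E) + CDGAux.S5 (LE E) + CDGAux.S5 (LE E) + CDGAux.S5 (LE E) =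
      p5 E 1 + 3 * p5 E 2 + 3 * p5 E 3 + p5 E 4 + 5 * p5 E 5 := by
    rw [← h2, S5_add, S5_add, S5_add, S5_add, e1, e2, e3, e4]
  omega

/-- the exact upper bound for the codegree squares -/
theorem upper (n : ℕ) (G : Finset (Finset (Fin n))) (hG : ∀ s ∈ G, s.card = 4) (hK : K54Free G) :
    384 * ∑ P ∈ (univ : Finset (Fin n)).powersetCard 3, (codeg G P) ^ 2 ≤ 31 * n ^ 5 := by
  obtain ⟨hS, hC⟩ := goal_NON n G hG hK
  obtain ⟨h1, h2⟩ := goal_CDG n G hG hK
  have h3 := ineq7 hS hC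
  have h4 := star_exact (non G) hS hC
  set s := ∑ P ∈ (univ : Finset (Fin n)).powersetCard 3, (codeg G P) ^ 2
  omega

end Pool.Agent.H65.FF
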